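import Mathlib

set_option autoImplicit false

namespace Pool.Agent.H237Z.Dil

variable {R : Type*} [Ring R] [Algebra ℂ R]

lemma cancel_nat (n : ℕ) (hn : n ≠ 0) {x : R} (h : (n : R) * x = 0) : x = 0 := by
  have h1 : (n : R) * x = (n : ℂ) • x := by
    rw [Nat.cast_smul_eq_nsmul, nsmul_eq_mul]
  rw [h1] at h
  have h2 : x = ((n : ℂ)⁻¹) • ((n : ℂ) • x) := by
    rw [smul_smul, inv_mul_cancel₀ (by exact_mod_cast hn), one_smul]
  rw [h2, h, smul_zero]

lemma c2 {x : R} (h : 2 * x = 0) : x = 0 := cancel_nat 2 (by norm_num) (by exact_mod_cast h)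
lemma c6 {x : R} (h : 6 * x = 0) : x = 0 := cancel_nat 6 (by norm_num) (by exact_mod_cast h)

/-- the value of a linear map on symmetric three by three matrices at the rank one matrix of the
integer vector `(x, y, z)` -/
def qf (E1 E2 E3 S12 S13 S23 : R) (x y z : ℤ) : R :=
  (x * x) • E1 + (y * y) • E2 + (z * z) • E3 + (x * y) • S12 + (x * z) • S13 + (y * z) • S23

/-- relations for one pair of indices -/
lemma pair_rel {E1 E2 E3 S : R} (h12 : E1 * E2 = 0) (h21 : E2 * E1 = 0)
    (h3a : E3 * (E1 + E2 + S) = 0) (h31 : E3 * E1 = 0) (h32 : E3 * E2 = 0)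
    (h3b : (E1 + E2 + S) * E3 = 0) (h13 : E1 * E3 = 0) (h23 : E2 * E3 = 0)
    (ha : (E1 + E2 + S) * (E1 + E2 - S) = 0) (hb : (E1 + E2 - S) * (E1 + E2 + S) = 0)
    (hc : (E1 + 4 * E2 + 2 * S) * (4 * E1 + E2 - 2 * S) = 0) :
    E3 * S = 0 ∧ S * E3 = 0 ∧ S * S = E1 * E1 + E2 * E2 ∧ E1 * S = S * E2 ∧ E2 * S = S * E1 := by
  have a1 : E3 * S = 0 := by linear_combination (norm := noncomm_ring) h3a - h31 - h32
  have a2 : S * E3 = 0 := by linear_combination (norm := noncomm_ring) h3b - h13 - h23
  have a3 : S * S = E1 * E1 + E2 * E2 := by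
    have : 2 * (S * S - (E1 * E1 + E2 * E2)) = 0 := by
      linear_combination (norm := noncomm_ring) 2 * h12 + 2 * h21 - ha - hb
    exact sub_eq_zero.1 (c2 this)
  have a4 : S * E1 + S * E2 - E1 * S - E2 * S = 0 := by
    linear_combination (norm := noncomm_ring) ha - h12 - h21 + a3
  have a5 : E2 * S = S * E1 := by
    have : 6 * (S * E1 - E2 * S) = 0 := by
      linear_combination (norm := noncomm_ring) hc - h12 - 16 * h21 + 4 * a3 - 2 * a4
    exact (sub_eq_zero.1 (c6 this)).symm
  refine ⟨a1, a2, a3, ?_, a5⟩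
  linear_combination (norm := noncomm_ring) - a4 - a5

/-- cross relations for one pair of indices -/
lemma cross_rel {E1 E2 S F1 F2 T : R} (h1 : E1 * F1 = 0) (h2 : E2 * F2 = 0)
    (ha : (E1 + E2 + S) * (F1 + F2 + T) = 0) (hb : (E1 + E2 - S) * (F1 + F2 - T) = 0)
    (hc : (4 * E1 + E2 + 2 * S) * (4 * F1 + F2 + 2 * T) = 0) :
    E1 * T = - (S * F1) ∧ E2 * T = - (S * F2) := by
  have a1 : E1 * F2 + E2 * F1 + S * T = 0 := by
    apply c2
    linear_combination (norm := noncomm_ring) ha + hb - 2 * h1 - 2 * h2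
  have a2 : (E1 * T + S * F1) + (E2 * T + S * F2) = 0 := by
    linear_combination (norm := noncomm_ring) ha - h1 - h2 - a1
  have a3 : E1 * T + S * F1 = 0 := by
    apply c6
    linear_combination (norm := noncomm_ring) hc - 16 * h1 - h2 - 4 * a1 - 2 * a2
  constructor
  · linear_combination (norm := noncomm_ring) a3
  · linear_combination (norm := noncomm_ring) a2 - a3

lemma alg_final {E1 E2 E3 S12 S13 S23 F1 F2 F3 T12 T13 T23 : R}
    (hD : E1 + E2 + E3 = F1 + F2 + F3)
    (e12 : E1 * E2 = 0) (e21 : E2 * E1 = 0) (e13 : E1 * E3 = 0) (e31 : E3 * E1 = 0)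
    (e23 : E2 * E3 = 0) (e32 : E3 * E2 = 0)
    (f12 : F1 * F2 = 0) (f21 : F2 * F1 = 0) (f13 : F1 * F3 = 0) (f31 : F3 * F1 = 0)
    (f23 : F2 * F3 = 0) (f32 : F3 * F2 = 0)
    (ef1 : E1 * F1 = 0) (ef2 : E2 * F2 = 0) (ef3 : E3 * F3 = 0)
    (fe1 : F1 * E1 = 0) (fe2 : F2 * E2 = 0) (fe3 : F3 * E3 = 0)
    (p1 : E3 * S12 = 0) (p2 : S12 * E3 = 0) (p3 : S12 * S12 = E1 * E1 + E2 * E2)
    (p4 : E1 * S12 = S12 * E2) (p5 : E2 * S12 = S12 * E1)
    (q1 : E2 * S13 = 0) (q2 : S13 * E2 = 0) (q3 : S13 * S13 = E1 * E1 + E3 * E3)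
    (q4 : E1 * S13 = S13 * E3) (q5 : E3 * S13 = S13 * E1)
    (r1 : E1 * S23 = 0) (r2 : S23 * E1 = 0) (r3 : S23 * S23 = E2 * E2 + E3 * E3)
    (r4 : E2 * S23 = S23 * E3) (r5 : E3 * S23 = S23 * E2)
    (pp3 : T12 * T12 = F1 * F1 + F2 * F2) (qq3 : T13 * T13 = F1 * F1 + F3 * F3)
    (rr3 : T23 * T23 = F2 * F2 + F3 * F3)
    (u12 : E1 * T12 = -(S12 * F1)) (u13 : E1 * T13 = -(S13 * F1)) (u23 : E2 * T23 = -(S23 * F2))
    (v12 : F1 * S12 = -(T12 * E1)) (v13 : F1 * S13 = -(T13 * E1)) (v23 : F2 * S23 = -(T23 * E2))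
    (h1 : (E1 + E2 + E3 + S12 + S13 + S23) * (E1 + E2 - S12) = 0)
    (h2 : (E1 + E2 - S12) * (E1 + E2 + E3 + S12 + S13 + S23) = 0) :
    E1 ^ 16 = 0 := by
  obtain ⟨D, hDE⟩ : ∃ D, D = E1 + E2 + E3 := ⟨_, rfl⟩
  have hDF : D = F1 + F2 + F3 := hDE.trans hD
  have dE1 : D * E1 = E1 * E1 := by rw [hDE]; linear_combination (norm := noncomm_ring) e21 + e31
  have dE1' : E1 * D = E1 * E1 := by rw [hDE]; linear_combination (norm := noncomm_ring) e12 + e13
  have dE2 : D * E2 = E2 * E2 := by rw [hDE]; linear_combination (norm := noncomm_ring) e12 + e32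
  have dE2' : E2 * D = E2 * E2 := by rw [hDE]; linear_combination (norm := noncomm_ring) e21 + e23
  have dF1 : D * F1 = F1 * F1 := by rw [hDF]; linear_combination (norm := noncomm_ring) f21 + f31
  have dF2 : D * F2 = F2 * F2 := by rw [hDF]; linear_combination (norm := noncomm_ring) f12 + f32
  have dF2' : F2 * D = F2 * F2 := by rw [hDF]; linear_combination (norm := noncomm_ring) f21 + f23
  have dF3 : D * F3 = F3 * F3 := by rw [hDF]; linear_combination (norm := noncomm_ring) f13 + f23
  have dF3' : F3 * D = F3 * F3 := by rw [hDF]; linear_combination (norm := noncomm_ring) f31 + f32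
  have c1 : E1 * D = D * E1 := dE1'.trans dE1.symm
  have c2' : E2 * D = D * E2 := dE2'.trans dE2.symm
  have cF2 : F2 * D = D * F2 := dF2'.trans dF2.symm
  have cF3 : F3 * D = D * F3 := dF3'.trans dF3.symm
  have c12 : S12 * D = D * S12 := by
    rw [hDE]; linear_combination (norm := noncomm_ring) p2 - p1 - p4 - p5
  have c13 : S13 * D = D * S13 := by
    rw [hDE]; linear_combination (norm := noncomm_ring) q2 - q1 - q4 - q5
  have c23 : S23 * D = D * S23 := by
    rw [hDE]; linear_combination (norm := noncomm_ring) r2 - r1 - r4 - r5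
  -- holonomy
  have w1 : S13 * E1 * E1 = S23 * S12 * E1 := by
    have k1 : S13 * E1 + S23 * E2 - S13 * S12 - S23 * S12 = 0 := by
      linear_combination (norm := noncomm_ring) h1 - e21 - e31 - e12 - e32 + p4 + p5 + p1 + p3 - r2 - q2
    have k2 : S13 * S12 * E1 = 0 := by
      linear_combination (norm := noncomm_ring) q2 * S12 - S13 * p5
    linear_combination (norm := noncomm_ring) k1 * E1 - S23 * e21 + k2
  have w2 : E1 * E1 * S13 = E1 * S12 * S23 := by
    have k1 : E1 * S13 + E2 * S23 - S12 * S13 - S12 * S23 = 0 := by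
      linear_combination (norm := noncomm_ring) h2 - e21 - e12 - e13 - e23 - p4 - p5 + p2 + p3 - r1 - q1
    have k2 : E1 * S12 * S13 = 0 := by
      linear_combination (norm := noncomm_ring) S12 * q1 + p4 * S13
    linear_combination (norm := noncomm_ring) E1 * k1 - e12 * S23 + k2
  -- transport
  have m12 : D * (E1 * F2 * E1) = D * (S12 * F1 * S12) := by
    have k : E1 * (T12 * T12) * E1 = S12 * (F1 * F1) * S12 := by
      linear_combination (norm := noncomm_ring) u12 * T12 * E1 - S12 * F1 * v12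
    rw [pp3] at k
    linear_combination (norm := noncomm_ring) k - ef1 * F1 * E1 + E1 * dF2 * E1 - c1 * F2 * E1
      - S12 * dF1 * S12 + c12 * F1 * S12
  have m13 : D * (E1 * F3 * E1) = D * (S13 * F1 * S13) := by
    have k : E1 * (T13 * T13) * E1 = S13 * (F1 * F1) * S13 := by
      linear_combination (norm := noncomm_ring) u13 * T13 * E1 - S13 * F1 * v13
    rw [qq3] at k
    linear_combination (norm := noncomm_ring) k - ef1 * F1 * E1 + E1 * dF3 * E1 - c1 * F3 * E1
      - S13 * dF1 * S13 + c13 * F1 * S13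
  have m23 : D * (E2 * F3 * E2) = D * (S23 * F2 * S23) := by
    have k : E2 * (T23 * T23) * E2 = S23 * (F2 * F2) * S23 := by
      linear_combination (norm := noncomm_ring) u23 * T23 * E2 - S23 * F2 * v23
    rw [rr3] at k
    linear_combination (norm := noncomm_ring) k - ef2 * F2 * E2 + E2 * dF3 * E2 - c2' * F3 * E2
      - S23 * dF2 * S23 + c23 * F2 * S23
  obtain ⟨a, ha⟩ : ∃ a, a = E1 * F2 * E1 := ⟨_, rfl⟩
  obtain ⟨b, hb⟩ : ∃ b, b = E1 * F3 * E1 := ⟨_, rfl⟩
  have hab : a + b = E1 * E1 * E1 := by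
    rw [ha, hb]
    have : F2 + F3 = D - F1 := by rw [hDF]; noncomm_ring
    linear_combination (norm := noncomm_ring) E1 * this * E1 + dE1' * E1 - ef1 * E1
  have z1 : F2 * E1 * F3 = 0 := by
    have : E1 = D - E2 - E3 := by rw [hDE]; noncomm_ring
    rw [this]
    linear_combination (norm := noncomm_ring) cF2 * F3 + D * f23 - fe2 * F3 - F2 * ef3
  have z2 : F3 * E1 * F2 = 0 := by
    have : E1 = D - E2 - E3 := by rw [hDE]; noncomm_ring
    rw [this]
    linear_combination (norm := noncomm_ring) cF3 * F2 + D * f32 - fe3 * F2 - F3 * ef2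
  have ab0 : a * b = 0 := by
    rw [ha, hb]
    linear_combination (norm := noncomm_ring) - E1 * F2 * dE1 * F3 * E1 + E1 * cF2 * E1 * F3 * E1
      + E1 * D * z1 * E1
  have ba0 : b * a = 0 := by
    rw [ha, hb]
    linear_combination (norm := noncomm_ring) - E1 * F3 * dE1 * F2 * E1 + E1 * cF3 * E1 * F2 * E1
      + E1 * D * z2 * E1
  -- c and c'
  have k1 : E1 * (E1 * S12 * F3 * S12 * E1) = E1 * E1 * b * E1 := by
    have t0 : F3 = D - F1 - F2 := by rw [hDF]; noncomm_ring
    have t1 : E1 * S12 * F2 = 0 := by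
      linear_combination (norm := noncomm_ring) p4 * F2 + S12 * ef2
    have t2 : E1 * S12 * D * S12 * E1 = E1 * E1 * E1 * E1 * E1 := by
      linear_combination (norm := noncomm_ring) E1 * c12 * S12 * E1 + dE1' * S12 * S12 * E1
        + E1 * E1 * p3 * E1 + E1 * e12 * E2 * E1
    have t3 : E1 * E1 * (S12 * F1 * S12) = E1 * E1 * a := by
      rw [ha]
      linear_combination (norm := noncomm_ring) - E1 * m12 - dE1' * (S12 * F1 * S12)
        + dE1' * (E1 * F2 * E1)
    have t4 : b = E1 * E1 * E1 - a := by rw [← hab]; noncomm_ring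
    rw [t4, t0]
    linear_combination (norm := noncomm_ring) E1 * t2 - t3 * E1 - E1 * t1 * S12 * E1
  have k2 : E1 * (E1 * S13 * F2 * S13 * E1) = E1 * E1 * a * E1 := by
    have t0 : F2 = D - F1 - F3 := by rw [hDF]; noncomm_ring
    have t1 : E1 * S13 * F3 = 0 := by
      linear_combination (norm := noncomm_ring) q4 * F3 + S13 * ef3
    have t2 : E1 * S13 * D * S13 * E1 = E1 * E1 * E1 * E1 * E1 := by
      linear_combination (norm := noncomm_ring) E1 * c13 * S13 * E1 + dE1' * S13 * S13 * E1
        + E1 * E1 * q3 * E1 + E1 * e13 * E3 * E1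
    have t3 : E1 * E1 * (S13 * F1 * S13) = E1 * E1 * b := by
      rw [hb]
      linear_combination (norm := noncomm_ring) - E1 * m13 - dE1' * (S13 * F1 * S13)
        + dE1' * (E1 * F3 * E1)
    have t4 : a = E1 * E1 * E1 - b := by rw [← hab]; noncomm_ring
    rw [t4, t0]
    linear_combination (norm := noncomm_ring) E1 * t2 - t3 * E1 - E1 * t1 * S13 * E1
  have k3 : E1 * E1 * (E1 * S12 * F3 * S12 * E1) * E1 = E1 * E1 * (E1 * S13 * F2 * S13 * E1) * E1 := by
    have t1 : E1 * S12 * F3 * S12 * E1 = S12 * (E2 * F3 * E2) * S12 := by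
      linear_combination (norm := noncomm_ring) p4 * F3 * S12 * E1 - S12 * E2 * F3 * p5
    have t2 : E1 * E1 * (S12 * (E2 * F3 * E2) * S12) = E1 * E1 * (S12 * (S23 * F2 * S23) * S12) := by
      linear_combination (norm := noncomm_ring) E1 * S12 * m23 * S12
        - dE1' * (S12 * (E2 * F3 * E2) * S12) + dE1' * (S12 * (S23 * F2 * S23) * S12)
        - E1 * c12 * (E2 * F3 * E2) * S12 + E1 * c12 * (S23 * F2 * S23) * S12
    rw [t1, t2]
    linear_combination (norm := noncomm_ring) - E1 * w2 * F2 * S23 * S12 * E1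
      - E1 * E1 * E1 * S13 * F2 * w1
  have k4 : E1 * E1 * E1 * b * E1 * E1 = E1 * E1 * E1 * a * E1 * E1 := by
    linear_combination (norm := noncomm_ring) k3 - E1 * k1 * E1 + E1 * k2 * E1
  have ca : E1 * a = a * E1 := by
    rw [ha]
    linear_combination (norm := noncomm_ring) - dE1' * F2 * E1 + E1 * F2 * dE1 - E1 * cF2 * E1
  have cb : E1 * b = b * E1 := by
    rw [hb]
    linear_combination (norm := noncomm_ring) - dE1' * F3 * E1 + E1 * F3 * dE1 - E1 * cF3 * E1
  have k5 : E1 * E1 * E1 * E1 * E1 * b = E1 * E1 * E1 * E1 * E1 * a := by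
    linear_combination (norm := noncomm_ring) k4 + E1 * E1 * E1 * E1 * cb + E1 * E1 * E1 * cb * E1
      - E1 * E1 * E1 * E1 * ca - E1 * E1 * E1 * ca * E1
  have k6 : E1 * E1 * E1 * E1 * E1 * ((a + b) * (a + b)) = 0 := by
    linear_combination (norm := noncomm_ring) k5 * b - k5 * a + 2 * E1 * E1 * E1 * E1 * E1 * ab0
      + 2 * E1 * E1 * E1 * E1 * E1 * ba0
  rw [hab] at k6
  have k7 : E1 ^ 16 = (E1 * E1 * E1 * E1 * E1 * ((E1 * E1 * E1) * (E1 * E1 * E1))) * E1 ^ 5 := by
    noncomm_ring
  rw [k7, k6, zero_mul]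

theorem alg_main {E1 E2 E3 S12 S13 S23 F1 F2 F3 T12 T13 T23 : R}
    (hD : E1 + E2 + E3 = F1 + F2 + F3)
    (hA : ∀ x y z x' y' z' : ℤ, x * x' + y * y' + z * z' = 0 →
      qf E1 E2 E3 S12 S13 S23 x y z * qf E1 E2 E3 S12 S13 S23 x' y' z' = 0)
    (hB : ∀ x y z x' y' z' : ℤ, x * x' + y * y' + z * z' = 0 →
      qf F1 F2 F3 T12 T13 T23 x y z * qf F1 F2 F3 T12 T13 T23 x' y' z' = 0)
    (hAB : ∀ x y z : ℤ, qf E1 E2 E3 S12 S13 S23 x y z * qf F1 F2 F3 T12 T13 T23 x y z = 0)
    (hBA : ∀ x y z : ℤ, qf F1 F2 F3 T12 T13 T23 x y z * qf E1 E2 E3 S12 S13 S23 x y z = 0) :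
    E1 ^ 16 = 0 := by
  have e12 : E1 * E2 = 0 := by simpa [qf] using hA 1 0 0 0 1 0 (by norm_num)
  have e21 : E2 * E1 = 0 := by simpa [qf] using hA 0 1 0 1 0 0 (by norm_num)
  have e13 : E1 * E3 = 0 := by simpa [qf] using hA 1 0 0 0 0 1 (by norm_num)
  have e31 : E3 * E1 = 0 := by simpa [qf] using hA 0 0 1 1 0 0 (by norm_num)
  have e23 : E2 * E3 = 0 := by simpa [qf] using hA 0 1 0 0 0 1 (by norm_num)
  have e32 : E3 * E2 = 0 := by simpa [qf] using hA 0 0 1 0 1 0 (by norm_num)
  have f12 : F1 * F2 = 0 := by simpa [qf] using hB 1 0 0 0 1 0 (by norm_num)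
  have f21 : F2 * F1 = 0 := by simpa [qf] using hB 0 1 0 1 0 0 (by norm_num)
  have f13 : F1 * F3 = 0 := by simpa [qf] using hB 1 0 0 0 0 1 (by norm_num)
  have f31 : F3 * F1 = 0 := by simpa [qf] using hB 0 0 1 1 0 0 (by norm_num)
  have f23 : F2 * F3 = 0 := by simpa [qf] using hB 0 1 0 0 0 1 (by norm_num)
  have f32 : F3 * F2 = 0 := by simpa [qf] using hB 0 0 1 0 1 0 (by norm_num)
  have ef1 : E1 * F1 = 0 := by simpa [qf] using hAB 1 0 0
  have ef2 : E2 * F2 = 0 := by simpa [qf] using hAB 0 1 0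
  have ef3 : E3 * F3 = 0 := by simpa [qf] using hAB 0 0 1
  have fe1 : F1 * E1 = 0 := by simpa [qf] using hBA 1 0 0
  have fe2 : F2 * E2 = 0 := by simpa [qf] using hBA 0 1 0
  have fe3 : F3 * E3 = 0 := by simpa [qf] using hBA 0 0 1
  obtain ⟨p1, p2, p3, p4, p5⟩ := pair_rel (E1 := E1) (E2 := E2) (E3 := E3) (S := S12) e12 e21
    (by have := hA 0 0 1 1 1 0 (by norm_num); norm_num [qf, zsmul_eq_mul] at this
        linear_combination (norm := noncomm_ring) this) e31 e32
    (by have := hA 1 1 0 0 0 1 (by norm_num); norm_num [qf, zsmul_eq_mul] at this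
        linear_combination (norm := noncomm_ring) this) e13 e23
    (by have := hA 1 1 0 1 (-1) 0 (by norm_num); norm_num [qf, zsmul_eq_mul] at this
        linear_combination (norm := noncomm_ring) this)
    (by have := hA 1 (-1) 0 1 1 0 (by norm_num); norm_num [qf, zsmul_eq_mul] at this
        linear_combination (norm := noncomm_ring) this)
    (by have := hA 1 2 0 2 (-1) 0 (by norm_num); norm_num [qf, zsmul_eq_mul] at this
        linear_combination (norm := noncomm_ring) this)
  obtain ⟨q1, q2, q3, q4, q5⟩ := pair_rel (E1 := E1) (E2 := E3) (E3 := E2) (S := S13) e13 e31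
    (by have := hA 0 1 0 1 0 1 (by norm_num); norm_num [qf, zsmul_eq_mul] at this
        linear_combination (norm := noncomm_ring) this) e21 e23
    (by have := hA 1 0 1 0 1 0 (by norm_num); norm_num [qf, zsmul_eq_mul] at this
        linear_combination (norm := noncomm_ring) this) e12 e32
    (by have := hA 1 0 1 1 0 (-1) (by norm_num); norm_num [qf, zsmul_eq_mul] at this
        linear_combination (norm := noncomm_ring) this)
    (by have := hA 1 0 (-1) 1 0 1 (by norm_num); norm_num [qf, zsmul_eq_mul] at this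
        linear_combination (norm := noncomm_ring) this)
    (by have := hA 1 0 2 2 0 (-1) (by norm_num); norm_num [qf, zsmul_eq_mul] at this
        linear_combination (norm := noncomm_ring) this)
  obtain ⟨r1, r2, r3, r4, r5⟩ := pair_rel (E1 := E2) (E2 := E3) (E3 := E1) (S := S23) e23 e32
    (by have := hA 1 0 0 0 1 1 (by norm_num); norm_num [qf, zsmul_eq_mul] at this
        linear_combination (norm := noncomm_ring) this) e12 e13
    (by have := hA 0 1 1 1 0 0 (by norm_num); norm_num [qf, zsmul_eq_mul] at this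
        linear_combination (norm := noncomm_ring) this) e21 e31
    (by have := hA 0 1 1 0 1 (-1) (by norm_num); norm_num [qf, zsmul_eq_mul] at this
        linear_combination (norm := noncomm_ring) this)
    (by have := hA 0 1 (-1) 0 1 1 (by norm_num); norm_num [qf, zsmul_eq_mul] at this
        linear_combination (norm := noncomm_ring) this)
    (by have := hA 0 1 2 0 2 (-1) (by norm_num); norm_num [qf, zsmul_eq_mul] at this
        linear_combination (norm := noncomm_ring) this)
  obtain ⟨pp1, pp2, pp3, pp4, pp5⟩ := pair_rel (E1 := F1) (E2 := F2) (E3 := F3) (S := T12) f12 f21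
    (by have := hB 0 0 1 1 1 0 (by norm_num); norm_num [qf, zsmul_eq_mul] at this
        linear_combination (norm := noncomm_ring) this) f31 f32
    (by have := hB 1 1 0 0 0 1 (by norm_num); norm_num [qf, zsmul_eq_mul] at this
        linear_combination (norm := noncomm_ring) this) f13 f23
    (by have := hB 1 1 0 1 (-1) 0 (by norm_num); norm_num [qf, zsmul_eq_mul] at this
        linear_combination (norm := noncomm_ring) this)
    (by have := hB 1 (-1) 0 1 1 0 (by norm_num); norm_num [qf, zsmul_eq_mul] at this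
        linear_combination (norm := noncomm_ring) this)
    (by have := hB 1 2 0 2 (-1) 0 (by norm_num); norm_num [qf, zsmul_eq_mul] at this
        linear_combination (norm := noncomm_ring) this)
  obtain ⟨qq1, qq2, qq3, qq4, qq5⟩ := pair_rel (E1 := F1) (E2 := F3) (E3 := F2) (S := T13) f13 f31
    (by have := hB 0 1 0 1 0 1 (by norm_num); norm_num [qf, zsmul_eq_mul] at this
        linear_combination (norm := noncomm_ring) this) f21 f23
    (by have := hB 1 0 1 0 1 0 (by norm_num); norm_num [qf, zsmul_eq_mul] at this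
        linear_combination (norm := noncomm_ring) this) f12 f32
    (by have := hB 1 0 1 1 0 (-1) (by norm_num); norm_num [qf, zsmul_eq_mul] at this
        linear_combination (norm := noncomm_ring) this)
    (by have := hB 1 0 (-1) 1 0 1 (by norm_num); norm_num [qf, zsmul_eq_mul] at this
        linear_combination (norm := noncomm_ring) this)
    (by have := hB 1 0 2 2 0 (-1) (by norm_num); norm_num [qf, zsmul_eq_mul] at this
        linear_combination (norm := noncomm_ring) this)
  obtain ⟨rr1, rr2, rr3, rr4, rr5⟩ := pair_rel (E1 := F2) (E2 := F3) (E3 := F1) (S := T23) f23 f32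
    (by have := hB 1 0 0 0 1 1 (by norm_num); norm_num [qf, zsmul_eq_mul] at this
        linear_combination (norm := noncomm_ring) this) f12 f13
    (by have := hB 0 1 1 1 0 0 (by norm_num); norm_num [qf, zsmul_eq_mul] at this
        linear_combination (norm := noncomm_ring) this) f21 f31
    (by have := hB 0 1 1 0 1 (-1) (by norm_num); norm_num [qf, zsmul_eq_mul] at this
        linear_combination (norm := noncomm_ring) this)
    (by have := hB 0 1 (-1) 0 1 1 (by norm_num); norm_num [qf, zsmul_eq_mul] at this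
        linear_combination (norm := noncomm_ring) this)
    (by have := hB 0 1 2 0 2 (-1) (by norm_num); norm_num [qf, zsmul_eq_mul] at this
        linear_combination (norm := noncomm_ring) this)
  obtain ⟨u12, -⟩ := cross_rel (E1 := E1) (E2 := E2) (S := S12) (F1 := F1) (F2 := F2) (T := T12)
    ef1 ef2
    (by have := hAB 1 1 0; norm_num [qf, zsmul_eq_mul] at this
        linear_combination (norm := noncomm_ring) this)
    (by have := hAB 1 (-1) 0; norm_num [qf, zsmul_eq_mul] at this
        linear_combination (norm := noncomm_ring) this)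
    (by have := hAB 2 1 0; norm_num [qf, zsmul_eq_mul] at this
        linear_combination (norm := noncomm_ring) this)
  obtain ⟨u13, -⟩ := cross_rel (E1 := E1) (E2 := E3) (S := S13) (F1 := F1) (F2 := F3) (T := T13)
    ef1 ef3
    (by have := hAB 1 0 1; norm_num [qf, zsmul_eq_mul] at this
        linear_combination (norm := noncomm_ring) this)
    (by have := hAB 1 0 (-1); norm_num [qf, zsmul_eq_mul] at this
        linear_combination (norm := noncomm_ring) this)
    (by have := hAB 2 0 1; norm_num [qf, zsmul_eq_mul] at this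
        linear_combination (norm := noncomm_ring) this)
  obtain ⟨u23, -⟩ := cross_rel (E1 := E2) (E2 := E3) (S := S23) (F1 := F2) (F2 := F3) (T := T23)
    ef2 ef3
    (by have := hAB 0 1 1; norm_num [qf, zsmul_eq_mul] at this
        linear_combination (norm := noncomm_ring) this)
    (by have := hAB 0 1 (-1); norm_num [qf, zsmul_eq_mul] at this
        linear_combination (norm := noncomm_ring) this)
    (by have := hAB 0 2 1; norm_num [qf, zsmul_eq_mul] at this
        linear_combination (norm := noncomm_ring) this)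
  obtain ⟨v12, -⟩ := cross_rel (E1 := F1) (E2 := F2) (S := T12) (F1 := E1) (F2 := E2) (T := S12)
    fe1 fe2
    (by have := hBA 1 1 0; norm_num [qf, zsmul_eq_mul] at this
        linear_combination (norm := noncomm_ring) this)
    (by have := hBA 1 (-1) 0; norm_num [qf, zsmul_eq_mul] at this
        linear_combination (norm := noncomm_ring) this)
    (by have := hBA 2 1 0; norm_num [qf, zsmul_eq_mul] at this
        linear_combination (norm := noncomm_ring) this)
  obtain ⟨v13, -⟩ := cross_rel (E1 := F1) (E2 := F3) (S := T13) (F1 := E1) (F2 := E3) (T := S13)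
    fe1 fe3
    (by have := hBA 1 0 1; norm_num [qf, zsmul_eq_mul] at this
        linear_combination (norm := noncomm_ring) this)
    (by have := hBA 1 0 (-1); norm_num [qf, zsmul_eq_mul] at this
        linear_combination (norm := noncomm_ring) this)
    (by have := hBA 2 0 1; norm_num [qf, zsmul_eq_mul] at this
        linear_combination (norm := noncomm_ring) this)
  obtain ⟨v23, -⟩ := cross_rel (E1 := F2) (E2 := F3) (S := T23) (F1 := E2) (F2 := E3) (T := S23)
    fe2 fe3
    (by have := hBA 0 1 1; norm_num [qf, zsmul_eq_mul] at this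
        linear_combination (norm := noncomm_ring) this)
    (by have := hBA 0 1 (-1); norm_num [qf, zsmul_eq_mul] at this
        linear_combination (norm := noncomm_ring) this)
    (by have := hBA 0 2 1; norm_num [qf, zsmul_eq_mul] at this
        linear_combination (norm := noncomm_ring) this)
  have h1 := hA 1 1 1 1 (-1) 0 (by norm_num)
  have h2 := hA 1 (-1) 0 1 1 1 (by norm_num)
  norm_num [qf, zsmul_eq_mul] at h1 h2
  exact alg_final hD e12 e21 e13 e31 e23 e32 f12 f21 f13 f31 f23 f32 ef1 ef2 ef3 fe1 fe2 fe3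
    p1 p2 p3 p4 p5 q1 q2 q3 q4 q5 r1 r2 r3 r4 r5 pp3 qq3 rr3 u12 u13 u23 v12 v13 v23
    (by linear_combination (norm := noncomm_ring) h1) (by linear_combination (norm := noncomm_ring) h2)

end Pool.Agent.H237Z.Dil
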