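import Pool.Agent.H237Z.Dil.Four

set_option autoImplicit false
set_option linter.unusedSectionVars false
open scoped InnerProductSpace ENNReal NNReal Topology
open Pool.Agent.Helper526.Sch Filter

namespace Pool.Agent.H237Z.Dil

universe u v w

variable {ι : Type v} {κ : Type w} {H : Type u} [NormedAddCommGroup H] [InnerProductSpace ℂ H]
  [CompleteSpace H]

/-- the map `x ↦ (1/2) ∑ a_j x a_j^*` -/
noncomputable def chan (a : Fin 3 → (H →L[ℂ] H)) : (H →L[ℂ] H) →ₗ[ℂ] (H →L[ℂ] H) where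
  toFun x := (1 / 2 : ℂ) • ∑ j, a j * x * star (a j)
  map_add' x y := by
    rw [← smul_add, ← Finset.sum_add_distrib]
    congr 1
    refine Finset.sum_congr rfl fun j _ => ?_
    noncomm_ring
  map_smul' c x := by
    rw [RingHom.id_apply, smul_comm c, Finset.smul_sum (r := c)]
    congr 1
    refine Finset.sum_congr rfl fun j _ => ?_
    rw [mul_smul_comm, smul_mul_assoc]

lemma chan_apply (a : Fin 3 → (H →L[ℂ] H)) (x : H →L[ℂ] H) :
    chan a x = (1 / 2 : ℂ) • ∑ j, a j * x * star (a j) := rfl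

lemma inner_chan (a : Fin 3 → (H →L[ℂ] H)) (x : H →L[ℂ] H) (f v : H) :
    ⟪f, chan a x v⟫_ℂ = (1 / 2 : ℂ) * ∑ j, ⟪star (a j) f, x (star (a j) v)⟫_ℂ := by
  rw [chan_apply, smul_apply, inner_smul_right, sum_apply, inner_sum]
  congr 1
  refine Finset.sum_congr rfl fun j _ => ?_
  rw [inner_star_left]
  rfl

lemma norm_chan_le (a : Fin 3 → (H →L[ℂ] H))
    (ha : ∀ u, ∑ j, ‖star (a j) u‖ ^ 2 ≤ 2 * ‖u‖ ^ 2) (x : H →L[ℂ] H) : ‖chan a x‖ ≤ ‖x‖ := by
  refine ContinuousLinearMap.opNorm_le_bound _ (norm_nonneg _) fun v => ?_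
  set f := chan a x v with hf
  have h1 : ‖f‖ ^ 2 ≤ ‖x‖ * (‖f‖ * ‖v‖) := by
    have e1 : ‖f‖ ^ 2 = ‖⟪f, chan a x v⟫_ℂ‖ := by
      rw [← hf, inner_self_eq_norm_sq_to_K]
      simp
    rw [e1, inner_chan, norm_mul]
    have e2 : ‖∑ j, ⟪star (a j) f, x (star (a j) v)⟫_ℂ‖ ≤
        ‖x‖ * ∑ j, ‖star (a j) f‖ * ‖star (a j) v‖ := by
      rw [Finset.mul_sum]
      refine (norm_sum_le _ _).trans (Finset.sum_le_sum fun j _ => ?_)
      calc _ ≤ ‖star (a j) f‖ * ‖x (star (a j) v)‖ := norm_inner_le_norm _ _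
        _ ≤ ‖star (a j) f‖ * (‖x‖ * ‖star (a j) v‖) := by gcongr; exact x.le_opNorm _
        _ = _ := by ring
    have e3 : (∑ j, ‖star (a j) f‖ * ‖star (a j) v‖) ^ 2 ≤ (2 * (‖f‖ * ‖v‖)) ^ 2 := by
      refine (Finset.sum_mul_sq_le_sq_mul_sq _ _ _).trans ?_
      calc _ ≤ (2 * ‖f‖ ^ 2) * (2 * ‖v‖ ^ 2) := by
            gcongr
            · exact ha f
            · exact ha v
        _ = _ := by ring
    have e4 : ∑ j, ‖star (a j) f‖ * ‖star (a j) v‖ ≤ 2 * (‖f‖ * ‖v‖) :=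
      (pow_le_pow_iff_left₀ (by positivity) (by positivity) two_ne_zero).1 e3
    have e5 : ‖(1 / 2 : ℂ)‖ = 1 / 2 := by simp
    rw [e5]
    have := norm_nonneg x
    nlinarith
  rcases (norm_nonneg f).eq_or_lt with h0 | h0
  · rw [← h0]; positivity
  · nlinarith

lemma tr1_eq (b : HilbertBasis ι ℂ H) (v : HilbertBasis κ ℂ H) {X : H →L[ℂ] H} {lam : κ → ℝ}
    (h : ∀ k, (star X * X) (v k) = (lam k : ℂ) • v k) :
    trAbsPow b 1 X = ∑' k, ENNReal.ofReal ‖X (v k)‖ := by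
  rw [trAbsPow_eq b v h one_pos]
  congr 1
  funext k
  rw [eigen_nonneg v h k, rpow_two_mul_half (norm_nonneg _), Real.rpow_one]

lemma inner_le_tsum (u : HilbertBasis κ ℂ H) (x : H →L[ℂ] H) (φ ψ : H) :
    ENNReal.ofReal ‖⟪φ, x ψ⟫_ℂ‖ ≤
      ∑' m, ENNReal.ofReal (‖⟪φ, x (u m)⟫_ℂ‖ * ‖⟪u m, ψ⟫_ℂ‖) := by
  have h := u.hasSum_inner_mul_inner (star x φ) ψ
  rw [inner_star_left] at h
  rw [← h.tsum_eq, ofReal_norm]
  refine enorm_tsum_le_tsum_enorm.trans (le_of_eq ?_)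
  congr 1
  funext m
  rw [← ofReal_norm, norm_mul, inner_star_left]

lemma tr1_chan_le (b : HilbertBasis ι ℂ H) (a : Fin 3 → (H →L[ℂ] H))
    (ha : ∀ u, ∑ j, ‖a j u‖ ^ 2 ≤ 2 * ‖u‖ ^ 2) {x : H →L[ℂ] H} (hx : IsCompactOperator x)
    (hY : IsCompactOperator (chan a x)) : trAbsPow b 1 (chan a x) ≤ trAbsPow b 1 x := by
  classical
  obtain ⟨κ₁, v, lam, hv⟩ := exists_eigenbasis' (Cpt.of_compact hY).1
  obtain ⟨κ₂, u, mu, hu⟩ := exists_eigenbasis' (Cpt.of_compact hx).1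
  rw [tr1_eq b v hv, tr1_eq b u hu, ENNReal.tsum_eq_iSup_sum]
  refine iSup_le fun s => ?_
  set Y := chan a x with hYd
  set s' := s.filter fun k => Y (v k) ≠ 0 with hs'
  have e0 : ∑ k ∈ s, ENNReal.ofReal ‖Y (v k)‖ = ∑ k : s', ENNReal.ofReal ‖Y (v k)‖ := by
    rw [Finset.sum_coe_sort s' (fun k => ENNReal.ofReal ‖Y (v k)‖), hs', Finset.sum_filter]
    refine Finset.sum_congr rfl fun k _ => ?_
    by_cases h : Y (v k) = 0
    · simp [h]
    · simp [h]
  have hne : ∀ k : s', Y (v k) ≠ 0 := fun k => (Finset.mem_filter.1 k.2).2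
  let f : s' → H := fun k => ((‖Y (v k)‖⁻¹ : ℝ) : ℂ) • Y (v k)
  have hf : Orthonormal ℂ f := by
    constructor
    · intro k
      simp only [f]
      rw [norm_smul, Complex.norm_real, norm_inv, norm_norm,
        inv_mul_cancel₀ (norm_ne_zero_iff.2 (hne k))]
    · intro k l hkl
      simp only [f]
      rw [inner_smul_left, inner_smul_right, ← inner_star_right]
      have : (star Y) (Y (v l)) = (star Y * Y) (v l) := rfl
      rw [this, hv, inner_smul_right, v.orthonormal.2 (fun h => hkl (Subtype.ext h))]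
      simp
  have hv' : Orthonormal ℂ (fun k : s' => v k) := v.orthonormal.comp _ Subtype.val_injective
  have e1 : ∀ k : s', ‖Y (v k)‖ = ‖⟪f k, Y (v k)⟫_ℂ‖ := by
    intro k
    simp only [f]
    rw [inner_smul_left, inner_self_eq_norm_sq_to_K, norm_mul]
    have := norm_ne_zero_iff.2 (hne k)
    simp
    field_simp
  have e2 : ∀ k : s', ENNReal.ofReal ‖Y (v k)‖ ≤ ∑' m, ENNReal.ofReal ((1 / 2) *
      ∑ j, ‖⟪star (a j) (f k), x (u m)⟫_ℂ‖ * ‖⟪u m, star (a j) (v k)⟫_ℂ‖) := by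
    intro k
    rw [e1 k, hYd, inner_chan, norm_mul]
    have e5 : ‖(1 / 2 : ℂ)‖ = 1 / 2 := by simp
    rw [e5, ENNReal.ofReal_mul (by norm_num)]
    simp_rw [ENNReal.ofReal_mul (show (0 : ℝ) ≤ 1 / 2 by norm_num)]
    rw [ENNReal.tsum_mul_left]
    gcongr
    calc ENNReal.ofReal ‖∑ j, ⟪star (a j) (f k), x (star (a j) (v k))⟫_ℂ‖
        ≤ ENNReal.ofReal (∑ j, ‖⟪star (a j) (f k), x (star (a j) (v k))⟫_ℂ‖) :=
          ENNReal.ofReal_le_ofReal (norm_sum_le _ _)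
      _ = ∑ j, ENNReal.ofReal ‖⟪star (a j) (f k), x (star (a j) (v k))⟫_ℂ‖ :=
          ENNReal.ofReal_sum_of_nonneg (fun _ _ => norm_nonneg _)
      _ ≤ ∑ j, ∑' m, ENNReal.ofReal (‖⟪star (a j) (f k), x (u m)⟫_ℂ‖ *
            ‖⟪u m, star (a j) (v k)⟫_ℂ‖) := Finset.sum_le_sum fun j _ => inner_le_tsum u x _ _
      _ = ∑' m, ∑ j, ENNReal.ofReal (‖⟪star (a j) (f k), x (u m)⟫_ℂ‖ *
            ‖⟪u m, star (a j) (v k)⟫_ℂ‖) := (Summable.tsum_finsetSum fun _ _ => ENNReal.summable).symm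
      _ = _ := by
          congr 1
          funext m
          exact (ENNReal.ofReal_sum_of_nonneg (fun _ _ => by positivity)).symm
  rw [e0]
  refine (Finset.sum_le_sum fun k _ => e2 k).trans ?_
  rw [← Summable.tsum_finsetSum fun _ _ => ENNReal.summable]
  refine ENNReal.tsum_le_tsum fun m => ?_
  rw [← ENNReal.ofReal_sum_of_nonneg (fun _ _ => by positivity)]
  apply ENNReal.ofReal_le_ofReal
  rw [← Finset.mul_sum, ← Fintype.sum_prod_type']
  have c1 : ∑ p : s' × Fin 3, ‖⟪star (a p.2) (f p.1), x (u m)⟫_ℂ‖ ^ 2 ≤ 2 * ‖x (u m)‖ ^ 2 := by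
    rw [Fintype.sum_prod_type_right]
    refine le_trans (Finset.sum_le_sum fun j _ => ?_) (ha (x (u m)))
    simp only [inner_star_left]
    exact hf.sum_inner_products_le _
  have c2 : ∑ p : s' × Fin 3, ‖⟪u m, star (a p.2) (v p.1)⟫_ℂ‖ ^ 2 ≤ 2 := by
    rw [Fintype.sum_prod_type_right]
    have h3 := ha (u m)
    rw [u.orthonormal.1 m] at h3
    refine le_trans (Finset.sum_le_sum fun j _ => ?_) (by simpa using h3)
    simp only [inner_star_right]
    have := hv'.sum_inner_products_le (s := Finset.univ) (a j (u m))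
    refine le_trans (le_of_eq ?_) this
    exact Finset.sum_congr rfl fun k _ => by rw [norm_inner_symm]
  have c3 : (∑ p : s' × Fin 3, ‖⟪star (a p.2) (f p.1), x (u m)⟫_ℂ‖ *
      ‖⟪u m, star (a p.2) (v p.1)⟫_ℂ‖) ^ 2 ≤ (2 * ‖x (u m)‖) ^ 2 := by
    refine (Finset.sum_mul_sq_le_sq_mul_sq _ _ _).trans ?_
    calc _ ≤ (2 * ‖x (u m)‖ ^ 2) * 2 := by gcongr
      _ = _ := by ring
  have c4 := (pow_le_pow_iff_left₀ (by positivity) (by positivity) two_ne_zero).1 c3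
  linarith

/-- three by three matrices as operators -/
noncomputable def emb (b : HilbertBasis ℕ ℂ H) : Matrix (Fin 3) (Fin 3) ℂ →ₗ[ℂ] (H →L[ℂ] H) where
  toFun M := ∑ i, ∑ j, M i j • matUnit b i j
  map_add' M N := by simp [add_smul, Finset.sum_add_distrib]
  map_smul' c M := by simp [Finset.smul_sum, smul_smul]

lemma emb_apply (b : HilbertBasis ℕ ℂ H) (M : Matrix (Fin 3) (Fin 3) ℂ) :
    emb b M = ∑ i, ∑ j, M i j • matUnit b i j := rfl

lemma matUnit_mul (b : HilbertBasis ℕ ℂ H) (i j k l : ℕ) :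
    matUnit b i j * matUnit b k l = if j = k then matUnit b i l else 0 := by
  split_ifs with h
  · subst h; exact matUnit_mul_same b i j l
  · exact matUnit_mul_ne b h

lemma emb_mul (b : HilbertBasis ℕ ℂ H) (M N : Matrix (Fin 3) (Fin 3) ℂ) :
    emb b (M * N) = emb b M * emb b N := by
  simp only [emb_apply, Fin.sum_univ_three, Matrix.mul_apply, add_mul, mul_add, smul_mul_smul_comm,
    matUnit_mul]
  simp
  module

lemma emb_star (b : HilbertBasis ℕ ℂ H) (M : Matrix (Fin 3) (Fin 3) ℂ) :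
    emb b (star M) = star (emb b M) := by
  simp only [emb_apply, star_sum, star_smul, matUnit_star, Matrix.star_apply]
  rw [Finset.sum_comm]

lemma emb_schatten (b : HilbertBasis ℕ ℂ H) (M : Matrix (Fin 3) (Fin 3) ℂ) :
    IsSchatten b 4 (emb b M) := by
  have h : emb b M ∈ schattenSubmodule b 4 (by norm_num) := by
    rw [emb_apply]
    refine Submodule.sum_mem _ fun i _ => Submodule.sum_mem _ fun j _ => Submodule.smul_mem _ _ ?_
    exact ⟨matUnit_compact b i j, by rw [trAbsPow_matUnit b i j (by norm_num)]; simp⟩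
  exact h

lemma emb_one (b : HilbertBasis ℕ ℂ H) : emb b 1 = prN b 3 := by
  simp [emb_apply, prN, Fin.sum_univ_three, Finset.sum_range_succ, Matrix.one_apply]

end Pool.Agent.H237Z.Dil
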