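import Pool.Agent.Helper526.Sch.Units

set_option autoImplicit false
set_option linter.unusedSectionVars false
open scoped InnerProductSpace ENNReal NNReal Topology
open Pool.Agent.Helper526.Sch Filter

namespace Pool.Agent.H237Z.Dil

universe u v w

variable {ι : Type v} {κ : Type w} {H : Type u} [NormedAddCommGroup H] [InnerProductSpace ℂ H]
  [CompleteSpace H]

lemma tr4_eq (b : HilbertBasis ι ℂ H) (x : H →L[ℂ] H) :
    trAbsPow b 4 x = ∑' i, ENNReal.ofReal (‖(star x * x) (b i)‖ ^ 2) := by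
  unfold trAbsPow absPow
  have h1 : ((4 : ℝ) / 2) = ((2 : ℕ) : ℝ) := by norm_num
  rw [h1, CFC.rpow_natCast _ _ (star_mul_nonneg x)]
  congr 1
  funext i
  have h2 : (star x * x) ^ 2 = star (star x * x) * (star x * x) := by
    rw [(isSelfAdjoint_star_mul x).star_eq, sq]
  rw [h2, re_inner_star_mul]

lemma hs_norm_le (b : HilbertBasis ι ℂ H) (y : H →L[ℂ] H) :
    ENNReal.ofReal (‖y‖ ^ 2) ≤ ∑' i, ENNReal.ofReal (‖y (b i)‖ ^ 2) := by
  by_cases htop : ∑' i, ENNReal.ofReal (‖y (b i)‖ ^ 2) = ∞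
  · rw [htop]; exact le_top
  set S := (∑' i, ENNReal.ofReal (‖y (b i)‖ ^ 2)).toReal with hS
  have hS0 : 0 ≤ S := ENNReal.toReal_nonneg
  have hSe : ∑' i, ENNReal.ofReal (‖y (b i)‖ ^ 2) = ENNReal.ofReal S := by
    rw [hS, ENNReal.ofReal_toReal htop]
  have key : ∀ v, ‖(star y) v‖ ≤ Real.sqrt S * ‖v‖ := by
    intro v
    have h1 : ENNReal.ofReal (‖(star y) v‖ ^ 2) ≤ ENNReal.ofReal (S * ‖v‖ ^ 2) := by
      rw [← tsum_ofReal_inner_sq b, ENNReal.ofReal_mul hS0, ← hSe, ← ENNReal.tsum_mul_right]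
      refine ENNReal.tsum_le_tsum fun i => ?_
      rw [← ENNReal.ofReal_mul (by positivity)]
      apply ENNReal.ofReal_le_ofReal
      rw [inner_star_left, ← mul_pow, mul_comm]
      gcongr
      exact norm_inner_le_norm _ _
    rw [ENNReal.ofReal_le_ofReal_iff (by positivity)] at h1
    have h2 : ‖(star y) v‖ ^ 2 ≤ (Real.sqrt S * ‖v‖) ^ 2 := by
      rw [mul_pow, Real.sq_sqrt hS0]; exact h1
    exact (pow_le_pow_iff_left₀ (norm_nonneg _) (by positivity) two_ne_zero).1 h2
  have h3 : ‖star y‖ ≤ Real.sqrt S := ContinuousLinearMap.opNorm_le_bound _ (by positivity) key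
  rw [norm_star] at h3
  rw [hSe]
  apply ENNReal.ofReal_le_ofReal
  calc ‖y‖ ^ 2 ≤ (Real.sqrt S) ^ 2 := by gcongr
    _ = S := Real.sq_sqrt hS0

lemma norm_four_le (b : HilbertBasis ι ℂ H) (x : H →L[ℂ] H) :
    ENNReal.ofReal (‖x‖ ^ 4) ≤ trAbsPow b 4 x := by
  rw [tr4_eq]
  refine le_trans (le_of_eq ?_) (hs_norm_le b (star x * x))
  rw [CStarRing.norm_star_mul_self]
  congr 1
  ring

lemma eq_zero_of_tr4 (b : HilbertBasis ι ℂ H) {x : H →L[ℂ] H} (h : trAbsPow b 4 x = 0) : x = 0 := by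
  have h1 := norm_four_le b x
  rw [h, nonpos_iff_eq_zero, ENNReal.ofReal_eq_zero] at h1
  have h2 : ‖x‖ ^ 4 = 0 := le_antisymm h1 (by positivity)
  exact norm_eq_zero.1 (pow_eq_zero_iff (by norm_num) |>.1 h2)

/-- the projection on the first `n` basis vectors -/
noncomputable def prN (b : HilbertBasis ℕ ℂ H) (n : ℕ) : H →L[ℂ] H :=
  ∑ i ∈ Finset.range n, matUnit b i i

lemma prN_basis (b : HilbertBasis ℕ ℂ H) (n k : ℕ) :
    prN b n (b k) = if k < n then b k else 0 := by
  classical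
  unfold prN
  rw [sum_apply]
  simp only [matUnit_apply, inner_basis b, ite_smul, one_smul, zero_smul]
  rw [Finset.sum_ite_eq' (Finset.range n) k (fun i => b i)]
  simp

lemma prN_compact (b : HilbertBasis ℕ ℂ H) (n : ℕ) : IsCompactOperator (prN b n) := by
  unfold prN
  induction n with
  | zero => simpa using isCompactOperator_zero
  | succ n ih =>
    rw [Finset.sum_range_succ]
    exact ih.add (matUnit_compact b n n)

lemma prN_star (b : HilbertBasis ℕ ℂ H) (n : ℕ) : star (prN b n) = prN b n := by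
  unfold prN
  rw [star_sum]
  exact Finset.sum_congr rfl fun i _ => matUnit_star b i i

lemma prN_idem (b : HilbertBasis ℕ ℂ H) (n : ℕ) : prN b n * prN b n = prN b n := by
  classical
  unfold prN
  rw [Finset.sum_mul_sum]
  refine Finset.sum_congr rfl fun i hi => ?_
  rw [Finset.sum_eq_single i]
  · exact matUnit_mul_same b i i i
  · intro j _ hj
    exact matUnit_mul_ne b (Ne.symm hj)
  · intro h; exact absurd hi h

lemma norm_one_sub_prN (b : HilbertBasis ℕ ℂ H) (n : ℕ) : ‖1 - prN b n‖ ≤ 1 := by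
  have h1 : star (1 - prN b n) * (1 - prN b n) = 1 - prN b n := by
    rw [star_sub, star_one, prN_star, sub_mul, mul_sub, mul_sub, prN_idem]
    simp
  have h2 : ‖star (1 - prN b n) * (1 - prN b n)‖ = ‖1 - prN b n‖ * ‖1 - prN b n‖ :=
    CStarRing.norm_star_mul_self
  rw [h1] at h2
  by_contra hcon
  rw [not_le] at hcon
  nlinarith

lemma compact_of_tr4 (b : HilbertBasis ℕ ℂ H) {x : H →L[ℂ] H} (h : trAbsPow b 4 x < ∞) :
    IsCompactOperator x := by
  rw [tr4_eq] at h
  set y := star x * x with hy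
  have htail := ENNReal.tendsto_tsum_compl_atTop_zero h.ne
  have htail2 : Tendsto (fun n : ℕ => ∑' i : {i // i ∉ Finset.range n},
      ENNReal.ofReal (‖y (b i)‖ ^ 2)) atTop (𝓝 0) := htail.comp tendsto_finset_range
  have hb : ∀ n : ℕ, ENNReal.ofReal (‖x * prN b n - x‖ ^ 4) ≤
      ∑' i : {i // i ∉ Finset.range n}, ENNReal.ofReal (‖y (b i)‖ ^ 2) := by
    intro n
    have e1 : x * prN b n - x = -(x * (1 - prN b n)) := by noncomm_ring
    have e2 : ‖x * (1 - prN b n)‖ * ‖x * (1 - prN b n)‖ ≤ ‖y * (1 - prN b n)‖ := by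
      rw [← CStarRing.norm_star_mul_self, star_mul]
      have : star (1 - prN b n) * star x * (x * (1 - prN b n)) =
          star (1 - prN b n) * (y * (1 - prN b n)) := by rw [hy]; noncomm_ring
      rw [this]
      refine (norm_mul_le _ _).trans ?_
      rw [norm_star]
      have := norm_one_sub_prN b n
      have h0 := norm_nonneg (y * (1 - prN b n))
      nlinarith
    have e3 := hs_norm_le b (y * (1 - prN b n))
    have e4 : ∑' i, ENNReal.ofReal (‖(y * (1 - prN b n)) (b i)‖ ^ 2) =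
        ∑' i : {i // i ∉ Finset.range n}, ENNReal.ofReal (‖y (b i)‖ ^ 2) := by
      have := tsum_subtype {i | i ∉ Finset.range n} (fun i => ENNReal.ofReal (‖y (b i)‖ ^ 2))
      refine Eq.trans ?_ this.symm
      congr 1
      funext i
      have e5 : (y * (1 - prN b n)) (b i) = y (b i - prN b n (b i)) := rfl
      rw [e5, prN_basis]
      by_cases hi : i < n
      · simp [hi]
      · rw [Set.indicator_of_mem (by simpa using hi)]
        simp [hi]
    rw [e1, norm_neg, ← e4]
    refine le_trans (ENNReal.ofReal_le_ofReal ?_) e3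
    have h0 := norm_nonneg (x * (1 - prN b n))
    calc ‖x * (1 - prN b n)‖ ^ 4 = (‖x * (1 - prN b n)‖ * ‖x * (1 - prN b n)‖) ^ 2 := by ring
      _ ≤ _ := by gcongr
  have h1 : Tendsto (fun n : ℕ => ENNReal.ofReal (‖x * prN b n - x‖ ^ 4)) atTop (𝓝 0) :=
    tendsto_of_tendsto_of_tendsto_of_le_of_le tendsto_const_nhds htail2 (fun _ => zero_le) hb
  have h2 : Tendsto (fun n : ℕ => ‖x * prN b n - x‖ ^ 4) atTop (𝓝 0) := by
    have := (ENNReal.tendsto_toReal ENNReal.zero_ne_top).comp h1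
    simp only [ENNReal.toReal_zero] at this
    refine this.congr fun n => ?_
    simp only [Function.comp]
    rw [ENNReal.toReal_ofReal (by positivity)]
  have h3 : Tendsto (fun n : ℕ => ‖x * prN b n - x‖) atTop (𝓝 0) := by
    have h4 := (Real.continuous_sqrt.tendsto 0).comp ((Real.continuous_sqrt.tendsto 0).comp h2
      |>.congr (fun _ => rfl) |> fun h => by simpa using h)
    simp only [Real.sqrt_zero] at h4
    refine h4.congr fun n => ?_
    simp only [Function.comp]
    have h0 := norm_nonneg (x * prN b n - x)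
    rw [show ‖x * prN b n - x‖ ^ 4 = (‖x * prN b n - x‖ ^ 2) ^ 2 by ring,
      Real.sqrt_sq (by positivity), Real.sqrt_sq h0]
  have h5 : Tendsto (fun n : ℕ => x * prN b n) atTop (𝓝 x) :=
    tendsto_iff_norm_sub_tendsto_zero.2 h3
  refine isCompactOperator_of_tendsto h5 (Eventually.of_forall fun n => ?_)
  exact (prN_compact b n).clm_comp x

lemma tr4_add_of_disj (b : HilbertBasis ι ℂ H) {x y : H →L[ℂ] H} (h1 : star x * y = 0)
    (h2 : x * star y = 0) : trAbsPow b 4 (x + y) = trAbsPow b 4 x + trAbsPow b 4 y := by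
  have h1' : star y * x = 0 := by
    have := congrArg star h1
    rwa [star_mul, star_star, star_zero] at this
  rw [tr4_eq, tr4_eq, tr4_eq, ← ENNReal.tsum_add]
  congr 1
  funext i
  rw [← ENNReal.ofReal_add (by positivity) (by positivity)]
  congr 1
  have e1 : star (x + y) * (x + y) = star x * x + star y * y := by
    rw [star_add, add_mul, mul_add, mul_add, h1, h1']; simp
  have e2 : ⟪(star x * x) (b i), (star y * y) (b i)⟫_ℂ = 0 := by
    have e3 : star (star x * x) * (star y * y) = 0 := by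
      rw [star_mul, star_star]
      calc star x * x * (star y * y) = star x * (x * star y) * y := by noncomm_ring
        _ = 0 := by rw [h2]; simp
    rw [← inner_star_right]
    have : (star (star x * x)) ((star y * y) (b i)) = (star (star x * x) * (star y * y)) (b i) := rfl
    rw [this, e3]
    simp
  rw [e1]
  have : (star x * x + star y * y) (b i) = (star x * x) (b i) + (star y * y) (b i) := rfl
  rw [this, sq, sq, sq]
  exact norm_add_sq_eq_norm_sq_add_norm_sq_of_inner_eq_zero _ _ e2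

lemma re_inner_eq_zero_of_min {E : Type*} [NormedAddCommGroup E] [InnerProductSpace ℂ E]
    {α γ ζ : E} (h : ∀ t : ℝ, ‖α‖ ^ 2 ≤ ‖α + (t : ℂ) • γ + ((t ^ 2 : ℝ) : ℂ) • ζ‖ ^ 2) :
    RCLike.re ⟪α, γ⟫_ℂ = 0 := by
  set r := RCLike.re ⟪α, γ⟫_ℂ with hr
  set c2 := ‖γ‖ ^ 2 + 2 * RCLike.re ⟪α, ζ⟫_ℂ with hc2
  set c3 := 2 * RCLike.re ⟪γ, ζ⟫_ℂ with hc3
  set c4 := ‖ζ‖ ^ 2 with hc4
  have e : ∀ t : ℝ, ‖α + (t : ℂ) • γ + ((t ^ 2 : ℝ) : ℂ) • ζ‖ ^ 2 =
      ‖α‖ ^ 2 + (2 * r) * t + c2 * t ^ 2 + c3 * t ^ 3 + c4 * t ^ 4 := by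
    intro t
    rw [@norm_add_sq ℂ, @norm_add_sq ℂ, inner_add_left, inner_smul_right, inner_smul_right,
      inner_smul_right, inner_smul_left, norm_smul, norm_smul, hr, hc2, hc3, hc4]
    simp only [Complex.norm_real, Real.norm_eq_abs, mul_pow, sq_abs, map_add, Complex.conj_ofReal,
      RCLike.re_to_complex, Complex.re_ofReal_mul]
    ring
  have hmin : IsLocalMin (fun t : ℝ => ‖α‖ ^ 2 + (2 * r) * t + c2 * t ^ 2 + c3 * t ^ 3 + c4 * t ^ 4) 0 := by
    refine Eventually.of_forall fun t => ?_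
    have := h t
    rw [e] at this
    simpa using this
  have hd : HasDerivAt (fun t : ℝ => ‖α‖ ^ 2 + (2 * r) * t + c2 * t ^ 2 + c3 * t ^ 3 + c4 * t ^ 4)
      (2 * r) 0 := by
    have a1 := (hasDerivAt_id' (0 : ℝ)).const_mul (2 * r)
    have a2 := (hasDerivAt_pow 2 (0 : ℝ)).const_mul c2
    have a3 := (hasDerivAt_pow 3 (0 : ℝ)).const_mul c3
    have a4 := (hasDerivAt_pow 4 (0 : ℝ)).const_mul c4
    have := (((a1.const_add (‖α‖ ^ 2)).fun_add a2).fun_add a3).fun_add a4
    exact this.congr_deriv (by norm_num)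
  have := hmin.hasDerivAt_eq_zero hd
  linarith

lemma summable_of_tsum {f : κ → H} (h : ∑' k, ENNReal.ofReal (‖f k‖ ^ 2) ≠ ∞) :
    Summable fun k => ‖f k‖ ^ 2 := by
  have := ENNReal.summable_toReal h
  refine this.congr fun k => ?_
  rw [ENNReal.toReal_ofReal (by positivity)]

lemma memlp_of_tsum {f : κ → H} (h : ∑' k, ENNReal.ofReal (‖f k‖ ^ 2) ≠ ∞) : Memℓp f 2 := by
  rw [memℓp_gen_iff (by norm_num)]
  simpa using summable_of_tsum h

lemma lp_norm_sq (f : lp (fun _ : κ => H) 2) :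
    ENNReal.ofReal (‖f‖ ^ 2) = ∑' k, ENNReal.ofReal (‖f k‖ ^ 2) := by
  have h1 := lp.hasSum_norm (p := 2) (by norm_num) f
  simp only [ENNReal.toReal_ofNat, Real.rpow_ofNat] at h1
  rw [← h1.tsum_eq, ENNReal.ofReal_tsum_of_nonneg (fun _ => by positivity) h1.summable]

/-- the first variation argument -/
lemma key_disj (b : HilbertBasis ℕ ℂ H) {x x' y y' : H →L[ℂ] H} (hx : trAbsPow b 4 x < ∞)
    (hx' : trAbsPow b 4 x' < ∞) (hy : trAbsPow b 4 y < ∞)
    (h1 : star x * x' = 0) (h2 : x * star x' = 0) (h3 : star y' * y = 0) (hsum : x + x' = y + y')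
    (hmin : ∀ t : ℝ, trAbsPow b 4 x ≤ trAbsPow b 4 (x + (t : ℂ) • (y - (1 / 2 : ℂ) • x'))) :
    y * star x = 0 := by
  set z := y - (1 / 2 : ℂ) • x' with hz
  have sx : IsSchatten b 4 x := ⟨compact_of_tr4 b hx, hx⟩
  have sx' : IsSchatten b 4 x' := ⟨compact_of_tr4 b hx', hx'⟩
  have sy : IsSchatten b 4 y := ⟨compact_of_tr4 b hy, hy⟩
  have sz : IsSchatten b 4 z := by
    have : z = y + (-1 / 2 : ℂ) • x' := by rw [hz, sub_eq_add_neg, ← neg_smul]; norm_num
    rw [this]
    exact schatten_add_mem b (by norm_num) sy (schatten_smul_mem b (by norm_num) _ sx')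
  have sxz : ∀ t : ℝ, IsSchatten b 4 (x + (t : ℂ) • z) := fun t =>
    schatten_add_mem b (by norm_num) sx (schatten_smul_mem b (by norm_num) _ sz)
  obtain ⟨κ, v, lam, hv⟩ := exists_eigenbasis' (Cpt.of_compact sx.1).1
  have hind : ∀ w : H →L[ℂ] H, IsSchatten b 4 w →
      trAbsPow b 4 w = ∑' k, ENNReal.ofReal (‖(star w * w) (v k)‖ ^ 2) := by
    intro w hw
    rw [trAbsPow_indep b v (Cpt.of_compact hw.1).1 (by norm_num), tr4_eq]
  let Φ : (w : H →L[ℂ] H) → IsSchatten b 4 w → lp (fun _ : κ => H) 2 := fun w hw =>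
    ⟨fun k => (star w * w) (v k), memlp_of_tsum (by rw [← hind w hw]; exact hw.2.ne)⟩
  have hΦ : ∀ w hw, ENNReal.ofReal (‖Φ w hw‖ ^ 2) = trAbsPow b 4 w := by
    intro w hw
    rw [lp_norm_sq, hind w hw]
  have hΦa : ∀ w hw k, (Φ w hw) k = (star w * w) (v k) := fun _ _ _ => rfl
  set α := Φ x sx
  set ζ := Φ z sz
  set γ := Φ _ (sxz 1) - α - ζ with hγ
  have hγa : ∀ k, γ k = (star x * z + star z * x) (v k) := by
    intro k
    have e1 : γ k = (Φ _ (sxz 1)) k - α k - ζ k := by rw [hγ]; rfl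
    rw [e1, hΦa _ (sxz 1), hΦa x sx, hΦa z sz]
    have e2 : star x * z + star z * x =
        star (x + ((1 : ℝ) : ℂ) • z) * (x + ((1 : ℝ) : ℂ) • z) - star x * x - star z * z := by
      simp only [Complex.ofReal_one, one_smul, star_add]
      noncomm_ring
    rw [e2]
    rfl
  have hcomb : ∀ t : ℝ, Φ _ (sxz t) = α + (t : ℂ) • γ + ((t ^ 2 : ℝ) : ℂ) • ζ := by
    intro t
    apply lp.ext
    funext k
    have e1 : (α + (t : ℂ) • γ + ((t ^ 2 : ℝ) : ℂ) • ζ) k =
        α k + (t : ℂ) • γ k + ((t ^ 2 : ℝ) : ℂ) • ζ k := rfl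
    change (Φ _ (sxz t)) k = (α + (t : ℂ) • γ + ((t ^ 2 : ℝ) : ℂ) • ζ) k
    rw [e1, hγa, hΦa _ (sxz t), hΦa x sx, hΦa z sz]
    have e2 : star (x + (t : ℂ) • z) * (x + (t : ℂ) • z) =
        star x * x + (t : ℂ) • (star x * z + star z * x) + ((t ^ 2 : ℝ) : ℂ) • (star z * z) := by
      rw [star_add, star_smul, add_mul, mul_add, mul_add, smul_add]
      simp only [RCLike.star_def, Complex.conj_ofReal, mul_smul_comm, smul_mul_assoc, smul_smul]
      push_cast
      rw [sq]
      abel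
    rw [e2]
    rfl
  have hre : RCLike.re ⟪α, γ⟫_ℂ = 0 := by
    apply re_inner_eq_zero_of_min (ζ := ζ)
    intro t
    rw [← hcomb t, ← ENNReal.ofReal_le_ofReal_iff (by positivity), hΦ x sx, hΦ _ (sxz t)]
    exact hmin t
  have h1' : star x' * x = 0 := by
    have := congrArg star h1
    rwa [star_mul, star_star, star_zero] at this
  have hC : star x * z + star z * x = star x * y + star y * x := by
    rw [hz, star_sub, star_smul, mul_sub, sub_mul, mul_smul_comm, smul_mul_assoc, h1, h1']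
    simp
  have hAB : (star x * x) * (star x * y) = (star x * x) * (star y * y) := by
    have e1 : x * star x = x * star (y + y') := by rw [← hsum, star_add, mul_add, h2, add_zero]
    have e2 : star (y + y') * y = star y * y := by rw [star_add, add_mul, h3, add_zero]
    calc (star x * x) * (star x * y) = star x * (x * star x) * y := by noncomm_ring
      _ = star x * x * (star (y + y') * y) := by rw [e1]; noncomm_ring
      _ = _ := by rw [e2]
  have hterm : ∀ k, RCLike.re ⟪α k, γ k⟫_ℂ = 2 * (lam k * ‖y (v k)‖ ^ 2) := by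
    intro k
    rw [hγa, hC, hΦa x sx]
    have e0 : (star x * y + star y * x) (v k) = (star x * y) (v k) + (star y * x) (v k) := rfl
    have e1 : ⟪(star x * x) (v k), (star x * y) (v k)⟫_ℂ = ((lam k * ‖y (v k)‖ ^ 2 : ℝ) : ℂ) := by
      have e2 : ⟪(star x * x) (v k), (star x * y) (v k)⟫_ℂ =
          ⟪(star x * x) (v k), (star y * y) (v k)⟫_ℂ := by
        rw [← inner_star_right, ← inner_star_right (star x * x), (isSelfAdjoint_star_mul x).star_eq]
        have : (star x * x) ((star x * y) (v k)) = ((star x * x) * (star x * y)) (v k) := rfl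
        rw [this, hAB]
        rfl
      rw [e2, hv k, inner_smul_left]
      have e3 : ⟪v k, (star y * y) (v k)⟫_ℂ = ⟪y (v k), y (v k)⟫_ℂ := inner_star_right y _ _
      rw [e3, inner_self_eq_norm_sq_to_K]
      simp
    have e4 : ⟪(star x * x) (v k), (star y * x) (v k)⟫_ℂ = ((lam k * ‖y (v k)‖ ^ 2 : ℝ) : ℂ) := by
      have e5 : ⟪(star x * x) (v k), (star y * x) (v k)⟫_ℂ =
          (starRingEnd ℂ) ⟪(star x * x) (v k), (star x * y) (v k)⟫_ℂ := by
        rw [hv k, inner_smul_left, inner_smul_left, map_mul, Complex.conj_ofReal, Complex.conj_ofReal,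
          inner_conj_symm]
        congr 1
        have : star y * x = star (star x * y) := by rw [star_mul, star_star]
        rw [this, inner_star_right]
      rw [e5, e1, Complex.conj_ofReal]
    rw [e0, inner_add_right, e1, e4, ← Complex.ofReal_add]
    simp only [RCLike.re_to_complex, Complex.ofReal_re]
    ring
  have hs : HasSum (fun k => 2 * (lam k * ‖y (v k)‖ ^ 2)) 0 := by
    have := (Complex.reCLM.hasSum (lp.hasSum_inner (𝕜 := ℂ) α γ))
    have e : Complex.reCLM ⟪α, γ⟫_ℂ = 0 := hre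
    rw [e] at this
    convert this using 1
    funext k
    exact (hterm k).symm
  have hlam : ∀ k, 0 ≤ lam k := fun k => by rw [eigen_nonneg v hv k]; positivity
  have hz0 : ∀ k, lam k * ‖y (v k)‖ ^ 2 = 0 := by
    intro k
    have := (hasSum_zero_iff_of_nonneg (f := fun k => 2 * (lam k * ‖y (v k)‖ ^ 2))
      (fun k => by have := hlam k; positivity)).1 hs
    have := congrFun this k
    simpa using this
  have hyA : y * (star x * x) = 0 := by
    have hb : ∀ k, (y * (star x * x)) (v k) = 0 := by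
      intro k
      have : (y * (star x * x)) (v k) = y ((star x * x) (v k)) := rfl
      rw [this, hv k, map_smul]
      rcases mul_eq_zero.1 (hz0 k) with h | h
      · rw [h]; simp
      · have : y (v k) = 0 := norm_eq_zero.1 (pow_eq_zero_iff (by norm_num) |>.1 h)
        rw [this, smul_zero]
    have h0 := hs_norm_le v (y * (star x * x))
    simp only [hb, norm_zero] at h0
    simp only [ne_eq, OfNat.ofNat_ne_zero, not_false_eq_true, zero_pow, ENNReal.ofReal_zero,
      tsum_zero, nonpos_iff_eq_zero, ENNReal.ofReal_eq_zero] at h0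
    have h4 : ‖y * (star x * x)‖ ^ 2 = 0 := le_antisymm h0 (by positivity)
    exact norm_eq_zero.1 (pow_eq_zero_iff (by norm_num) |>.1 h4)
  have h5 : (y * star x) * star (y * star x) = 0 := by
    rw [star_mul, star_star]
    calc y * star x * (x * star y) = y * (star x * x) * star y := by noncomm_ring
      _ = 0 := by rw [hyA, zero_mul]
  exact (CStarRing.mul_star_self_eq_zero_iff _).1 h5

end Pool.Agent.H237Z.Dil
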