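import Pool.Agent.H237Z.Dil.Chan
import Pool.Agent.H237Z.Dil.Alg

set_option autoImplicit false
set_option linter.unusedSectionVars false
open scoped InnerProductSpace ENNReal NNReal Topology
open Pool.Agent.Helper526.Sch Filter

namespace Pool.Agent.H237Z.Dil

universe u

variable {H : Type u} [NormedAddCommGroup H] [InnerProductSpace ℂ H] [CompleteSpace H]

/-- Kraus matrices of the Werner-Holevo channel -/
def KK : Fin 3 → Matrix (Fin 3) (Fin 3) ℂ :=
  ![!![0, 1, 0; -1, 0, 0; 0, 0, 0], !![0, 0, 1; 0, 0, 0; -1, 0, 0], !![0, 0, 0; 0, 0, 1; 0, -1, 0]]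

/-- the Werner-Holevo channel on the first three basis vectors -/
noncomputable def WH (b : HilbertBasis ℕ ℂ H) : (H →L[ℂ] H) →ₗ[ℂ] (H →L[ℂ] H) :=
  chan fun j => emb b (KK j)

lemma star_KK (j : Fin 3) : star (KK j) = - KK j := by
  ext r s
  fin_cases j <;> fin_cases r <;> fin_cases s <;> simp [KK]

lemma sum_KK : ∑ j, star (KK j) * KK j = (2 : ℂ) • (1 : Matrix (Fin 3) (Fin 3) ℂ) := by
  simp only [star_KK, Fin.sum_univ_three]
  ext r s
  fin_cases r <;> fin_cases s <;> simp [KK, Matrix.mul_apply, Fin.sum_univ_three] <;> norm_num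

lemma norm_prN_le (b : HilbertBasis ℕ ℂ H) (n : ℕ) : ‖prN b n‖ ≤ 1 := by
  have h1 : star (prN b n) * prN b n = prN b n := by rw [prN_star, prN_idem]
  have h2 : ‖star (prN b n) * prN b n‖ = ‖prN b n‖ * ‖prN b n‖ := CStarRing.norm_star_mul_self
  rw [h1] at h2
  by_contra hcon
  rw [not_le] at hcon
  nlinarith

lemma kraus_bound (b : HilbertBasis ℕ ℂ H) (u : H) :
    ∑ j, ‖emb b (KK j) u‖ ^ 2 ≤ 2 * ‖u‖ ^ 2 := by
  have e1 : ∑ j, ‖emb b (KK j) u‖ ^ 2 = RCLike.re ⟪u, ((2 : ℂ) • prN b 3) u⟫_ℂ := by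
    rw [← emb_one, ← map_smul, ← sum_KK, map_sum, sum_apply, inner_sum, map_sum]
    refine Finset.sum_congr rfl fun j _ => ?_
    rw [emb_mul, emb_star, re_inner_star_mul]
  rw [e1]
  refine (RCLike.re_le_norm _).trans ((norm_inner_le_norm _ _).trans ?_)
  rw [smul_apply, norm_smul]
  have h1 := (prN b 3).le_opNorm u
  have h2 := norm_prN_le b 3
  have h3 := norm_nonneg u
  have h4 : ‖(2 : ℂ)‖ = 2 := by simp
  have h5 : ‖prN b 3 u‖ ≤ ‖u‖ := by nlinarith
  rw [h4]
  nlinarith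

lemma kraus_bound' (b : HilbertBasis ℕ ℂ H) (u : H) :
    ∑ j, ‖star (emb b (KK j)) u‖ ^ 2 ≤ 2 * ‖u‖ ^ 2 := by
  refine le_trans (le_of_eq ?_) (kraus_bound b u)
  refine Finset.sum_congr rfl fun j _ => ?_
  rw [← emb_star, star_KK, map_neg, neg_apply, norm_neg]

lemma WH_norm_le (b : HilbertBasis ℕ ℂ H) (x : H →L[ℂ] H) : ‖WH b x‖ ≤ ‖x‖ :=
  norm_chan_le _ (kraus_bound' b) x

lemma WH_mul_prN (b : HilbertBasis ℕ ℂ H) (x : H →L[ℂ] H) : WH b x * prN b 3 = WH b x := by
  unfold WH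
  rw [chan_apply, smul_mul_assoc, Finset.sum_mul]
  congr 1
  refine Finset.sum_congr rfl fun j _ => ?_
  rw [mul_assoc, ← emb_star, ← emb_one, ← emb_mul, mul_one]

lemma WH_compact (b : HilbertBasis ℕ ℂ H) (x : H →L[ℂ] H) : IsCompactOperator (WH b x) := by
  rw [← WH_mul_prN]
  exact (prN_compact b 3).clm_comp (WH b x)

lemma WH_tr1 (b : HilbertBasis ℕ ℂ H) {x : H →L[ℂ] H} (hx : trAbsPow b 4 x < ∞) :
    trAbsPow b 1 (WH b x) ≤ trAbsPow b 1 x :=
  tr1_chan_le b _ (kraus_bound b) (compact_of_tr4 b hx) (WH_compact b x)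

lemma WH_tr4 (b : HilbertBasis ℕ ℂ H) (x : H →L[ℂ] H) :
    trAbsPow b 4 (WH b x) ≤ 3 * ENNReal.ofReal (‖x‖ ^ 4) := by
  rw [tr4_eq, tsum_eq_sum (s := Finset.range 3)]
  · have : ∀ i ∈ Finset.range 3, ENNReal.ofReal (‖(star (WH b x) * WH b x) (b i)‖ ^ 2) ≤
        ENNReal.ofReal (‖x‖ ^ 4) := by
      intro i _
      apply ENNReal.ofReal_le_ofReal
      have h1 := (star (WH b x) * WH b x).le_opNorm (b i)
      rw [b.orthonormal.1 i, mul_one, CStarRing.norm_star_mul_self] at h1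
      have h2 := WH_norm_le b x
      have h3 := norm_nonneg (WH b x)
      calc _ ≤ (‖WH b x‖ * ‖WH b x‖) ^ 2 := by gcongr
        _ ≤ (‖x‖ * ‖x‖) ^ 2 := by gcongr
        _ = _ := by ring
    refine (Finset.sum_le_sum this).trans (le_of_eq ?_)
    simp
  · intro i hi
    have e1 : (star (WH b x) * WH b x) (b i) = star (WH b x) ((WH b x * prN b 3) (b i)) := by
      rw [WH_mul_prN]; rfl
    have e2 : (WH b x * prN b 3) (b i) = WH b x (prN b 3 (b i)) := rfl
    rw [e1, e2, prN_basis, if_neg (by simpa using hi)]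
    simp

lemma WH_emb (b : HilbertBasis ℕ ℂ H) (M : Matrix (Fin 3) (Fin 3) ℂ) :
    WH b (emb b M) = emb b ((1 / 2 : ℂ) • ∑ j, KK j * M * star (KK j)) := by
  unfold WH
  rw [chan_apply, map_smul, map_sum]
  congr 1
  refine Finset.sum_congr rfl fun j _ => ?_
  rw [emb_mul, emb_mul, emb_star]

/-- basis of the symmetric matrices -/
def mE1 : Matrix (Fin 3) (Fin 3) ℂ := !![1, 0, 0; 0, 0, 0; 0, 0, 0]
def mE2 : Matrix (Fin 3) (Fin 3) ℂ := !![0, 0, 0; 0, 1, 0; 0, 0, 0]
def mE3 : Matrix (Fin 3) (Fin 3) ℂ := !![0, 0, 0; 0, 0, 0; 0, 0, 1]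
def mS12 : Matrix (Fin 3) (Fin 3) ℂ := !![0, 1, 0; 1, 0, 0; 0, 0, 0]
def mS13 : Matrix (Fin 3) (Fin 3) ℂ := !![0, 0, 1; 0, 0, 0; 1, 0, 0]
def mS23 : Matrix (Fin 3) (Fin 3) ℂ := !![0, 0, 0; 0, 0, 1; 0, 1, 0]

/-- the rank one matrix of an integer vector -/
def mP (x y z : ℤ) : Matrix (Fin 3) (Fin 3) ℂ :=
  !![x * x, x * y, x * z; x * y, y * y, y * z; x * z, y * z, z * z]

/-- the complementary matrix -/
noncomputable def mQ (x y z : ℤ) : Matrix (Fin 3) (Fin 3) ℂ :=
  ((x * x + y * y + z * z : ℤ) : ℂ) • (1 : Matrix (Fin 3) (Fin 3) ℂ) - mP x y z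

lemma mP_eq (x y z : ℤ) : mP x y z = qf mE1 mE2 mE3 mS12 mS13 mS23 x y z := by
  ext r s
  fin_cases r <;> fin_cases s <;> simp [mP, qf, mE1, mE2, mE3, mS12, mS13, mS23]

lemma one_eq : (1 : Matrix (Fin 3) (Fin 3) ℂ) = mE1 + mE2 + mE3 := by
  ext r s
  fin_cases r <;> fin_cases s <;> simp [mE1, mE2, mE3]

lemma star_mP (x y z : ℤ) : star (mP x y z) = mP x y z := by
  ext r s
  fin_cases r <;> fin_cases s <;> simp [mP, mul_comm]

lemma star_mQ (x y z : ℤ) : star (mQ x y z) = mQ x y z := by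
  unfold mQ
  rw [star_sub, star_smul, star_one, star_mP]
  simp

lemma mP_mul_mP {x y z x' y' z' : ℤ} (h : x * x' + y * y' + z * z' = 0) :
    mP x y z * mP x' y' z' = 0 := by
  have h' : (x : ℂ) * x' + y * y' + z * z' = 0 := by exact_mod_cast h
  ext r s
  fin_cases r <;> fin_cases s <;> simp [mP, Matrix.mul_apply, Fin.sum_univ_three]
  · linear_combination (x * x' : ℂ) * h'
  · linear_combination (x * y' : ℂ) * h'
  · linear_combination (x * z' : ℂ) * h'
  · linear_combination (y * x' : ℂ) * h'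
  · linear_combination (y * y' : ℂ) * h'
  · linear_combination (y * z' : ℂ) * h'
  · linear_combination (z * x' : ℂ) * h'
  · linear_combination (z * y' : ℂ) * h'
  · linear_combination (z * z' : ℂ) * h'

lemma mP_mul_mQ (x y z : ℤ) : mP x y z * mQ x y z = 0 := by
  ext r s
  fin_cases r <;> fin_cases s <;>
    simp [mP, mQ, Matrix.mul_apply, Fin.sum_univ_three, Matrix.one_apply] <;> ring

lemma WH_mP (x y z : ℤ) :
    (1 / 2 : ℂ) • ∑ j, KK j * mP x y z * star (KK j) = (1 / 2 : ℂ) • mQ x y z := by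
  congr 1
  simp only [star_KK, Fin.sum_univ_three]
  ext r s
  fin_cases r <;> fin_cases s <;>
    simp [mP, mQ, KK, Matrix.mul_apply, Fin.sum_univ_three, Matrix.one_apply] <;> ring

lemma WH_one :
    (1 / 2 : ℂ) • ∑ j, KK j * (1 : Matrix (Fin 3) (Fin 3) ℂ) * star (KK j) = 1 := by
  simp only [star_KK, Fin.sum_univ_three]
  ext r s
  fin_cases r <;> fin_cases s <;>
    simp [KK, Matrix.mul_apply, Fin.sum_univ_three, Matrix.one_apply] <;> norm_num

lemma iso_disj (b : HilbertBasis ℕ ℂ H) (V : (H →L[ℂ] H) →ₗ[ℂ] (H →L[ℂ] H))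
    (hV : ∀ x, trAbsPow b 4 x < ∞ → trAbsPow b 4 (V x) = trAbsPow b 4 x)
    {M N : Matrix (Fin 3) (Fin 3) ℂ} (hM : star M = M) (hN : star N = N) (h : M * N = 0) :
    V (emb b M) * star (V (emb b N)) = 0 ∧ star (V (emb b M)) * V (emb b N) = 0 := by
  have hf : ∀ L, trAbsPow b 4 (V (emb b L)) < ∞ := fun L => by
    rw [hV _ (emb_schatten b L).2]; exact (emb_schatten b L).2
  refine mccarthy_eq b (CptPair.of_compact (compact_of_tr4 b (hf M)) (compact_of_tr4 b (hf N)))
    (p := 4) (by norm_num) (by norm_num) (hf M).ne (hf N).ne ?_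
  rw [← map_add, ← map_sub, ← map_add, ← map_sub, hV _ (emb_schatten b _).2,
    hV _ (emb_schatten b _).2, hV _ (emb_schatten b _).2, hV _ (emb_schatten b _).2, map_add,
    sub_eq_add_neg, map_add]
  have d1 : star (emb b M) * emb b N = 0 := by rw [← emb_star, ← emb_mul, hM, h, map_zero]
  have d2 : emb b M * star (emb b N) = 0 := by rw [← emb_star, ← emb_mul, hN, h, map_zero]
  have d3 : trAbsPow b 4 (emb b (-N)) = trAbsPow b 4 (emb b N) := by
    rw [tr4_eq, tr4_eq, map_neg, star_neg, neg_mul_neg]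
  rw [tr4_add_of_disj b d1 d2, tr4_add_of_disj b (by rw [map_neg, mul_neg, d1, neg_zero])
    (by rw [map_neg, star_neg, mul_neg, d2, neg_zero]), d3, two_mul]

lemma gram (b : HilbertBasis ℕ ℂ H) (V : (H →L[ℂ] H) →ₗ[ℂ] (H →L[ℂ] H))
    (hV : ∀ x, trAbsPow b 4 x < ∞ → trAbsPow b 4 (V x) = trAbsPow b 4 x) (x y z : ℤ) :
    ((x * x + y * y + z * z : ℤ) : ℂ) • (star (V (emb b 1)) * V (emb b (mP x y z))) =
      star (V (emb b (mP x y z))) * V (emb b (mP x y z)) := by
  have h1 := (iso_disj b V hV (star_mP x y z) (star_mQ x y z) (mP_mul_mQ x y z)).2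
  have h2 : star (V (emb b (mQ x y z))) * V (emb b (mP x y z)) = 0 := by
    have := congrArg star h1
    rwa [star_mul, star_star, star_zero] at this
  unfold mQ at h2
  rw [map_sub, map_sub, map_smul, map_smul, star_sub, star_smul, sub_mul, smul_mul_assoc,
    sub_eq_zero] at h2
  rw [← h2]
  simp

lemma cancel_gram {x y z x' y' z' : ℤ} {L L' : Matrix (Fin 3) (Fin 3) ℂ →ₗ[ℂ] (H →L[ℂ] H)}
    (h : (((x * x + y * y + z * z : ℤ) : ℂ) • L (mP x y z)) *
      (((x' * x' + y' * y' + z' * z' : ℤ) : ℂ) • L' (mP x' y' z')) = 0) :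
    L (mP x y z) * L' (mP x' y' z') = 0 := by
  have hz : ∀ x y z : ℤ, x * x + y * y + z * z = 0 → mP x y z = 0 := by
    intro x y z h
    have hx : x = 0 := by nlinarith [mul_self_nonneg x, mul_self_nonneg y, mul_self_nonneg z]
    have hy : y = 0 := by nlinarith [mul_self_nonneg x, mul_self_nonneg y, mul_self_nonneg z]
    have hz : z = 0 := by nlinarith [mul_self_nonneg x, mul_self_nonneg y, mul_self_nonneg z]
    subst hx hy hz
    ext r s
    fin_cases r <;> fin_cases s <;> simp [mP]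
  by_cases h1 : x * x + y * y + z * z = 0
  · rw [hz x y z h1, map_zero, zero_mul]
  by_cases h2 : x' * x' + y' * y' + z' * z' = 0
  · rw [hz x' y' z' h2, map_zero, mul_zero]
  rw [smul_mul_smul_comm, smul_eq_zero] at h
  rcases h with h | h
  · exact absurd h (mul_ne_zero (by exact_mod_cast h1) (by exact_mod_cast h2))
  · exact h

lemma map_qf (L : Matrix (Fin 3) (Fin 3) ℂ →ₗ[ℂ] (H →L[ℂ] H)) (x y z : ℤ) :
    qf (L mE1) (L mE2) (L mE3) (L mS12) (L mS13) (L mS23) x y z = L (mP x y z) := by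
  rw [mP_eq]
  simp only [qf, map_add, map_zsmul]

theorem no_dilation (b : HilbertBasis ℕ ℂ H) (J P U : (H →L[ℂ] H) →ₗ[ℂ] (H →L[ℂ] H))
    (hJ : ∀ x, trAbsPow b 4 x < ∞ → trAbsPow b 4 (J x) = trAbsPow b 4 x)
    (hPJ : ∀ x, trAbsPow b 4 x < ∞ → P (J x) = J x)
    (hP : ∀ y, trAbsPow b 4 y < ∞ → trAbsPow b 4 (P y) ≤ trAbsPow b 4 y)
    (hU : ∀ x, trAbsPow b 4 x < ∞ → trAbsPow b 4 (U x) = trAbsPow b 4 x)
    (hdil : ∀ x, trAbsPow b 4 x < ∞ → P (U (J x)) = J (WH b x)) : False := by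
  set V := U ∘ₗ J with hVd
  have hVa : ∀ x, V x = U (J x) := fun _ => rfl
  have hV : ∀ x, trAbsPow b 4 x < ∞ → trAbsPow b 4 (V x) = trAbsPow b 4 x := by
    intro x hx
    rw [hVa, hU _ (by rw [hJ x hx]; exact hx), hJ x hx]
  have sJ : ∀ L, IsSchatten b 4 (J (emb b L)) := fun L => by
    have : trAbsPow b 4 (J (emb b L)) < ∞ := by
      rw [hJ _ (emb_schatten b L).2]; exact (emb_schatten b L).2
    exact ⟨compact_of_tr4 b this, this⟩
  have sV : ∀ L, IsSchatten b 4 (V (emb b L)) := fun L => by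
    have : trAbsPow b 4 (V (emb b L)) < ∞ := by
      rw [hV _ (emb_schatten b L).2]; exact (emb_schatten b L).2
    exact ⟨compact_of_tr4 b this, this⟩
  have hone : V (emb b 1) = J (emb b 1) := by
    set a := J (emb b 1) with ha
    set a' := V (emb b 1) with ha'
    have hPa' : P a' = a := by
      rw [ha', hVa, hdil _ (emb_schatten b 1).2, WH_emb, WH_one]
    have hPa : P a = a := hPJ _ (emb_schatten b 1).2
    have sX : IsSchatten b 4 (a + a') := schatten_add_mem b (by norm_num) (sJ 1) (sV 1)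
    have cY : IsCompactOperator (a - a' : H →L[ℂ] H) := (sJ 1).1.sub (sV 1).1
    have h1 := mccarthy_ge b (CptPair.of_compact sX.1 cY) (p := 4) (by norm_num)
    have e1 : a + a' + (a - a') = (2 : ℂ) • a := by rw [two_smul]; abel
    have e2 : a + a' - (a - a') = (2 : ℂ) • a' := by rw [two_smul]; abel
    have e3 : trAbsPow b 4 ((2 : ℂ) • a') = trAbsPow b 4 ((2 : ℂ) • a) := by
      rw [ha, ha', ← map_smul V, ← map_smul J, ← map_smul (emb b), hV _ (emb_schatten b _).2,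
        hJ _ (emb_schatten b _).2]
    have e4 : trAbsPow b 4 ((2 : ℂ) • a) ≤ trAbsPow b 4 (a + a') := by
      have := hP _ sX.2
      rwa [map_add, hPa, hPa', ← two_smul ℂ a] at this
    have e5 : trAbsPow b 4 ((2 : ℂ) • a) ≠ ∞ :=
      (schatten_smul_mem b (by norm_num) _ (sJ 1)).2.ne
    have h1' : 2 * (trAbsPow b 4 (a + a') + trAbsPow b 4 (a - a')) ≤
        trAbsPow b 4 (a + a' + (a - a')) + trAbsPow b 4 (a + a' - (a - a')) := h1
    rw [e1, e2, e3, ← two_mul, ENNReal.mul_le_mul_iff_right (by norm_num) (by norm_num)] at h1'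
    have h2 : trAbsPow b 4 ((2 : ℂ) • a) + trAbsPow b 4 (a - a') ≤
        trAbsPow b 4 ((2 : ℂ) • a) + 0 := by
      rw [add_zero]
      exact le_trans (by gcongr) h1'
    rw [ENNReal.add_le_add_iff_left e5, nonpos_iff_eq_zero] at h2
    exact (sub_eq_zero.1 (eq_zero_of_tr4 b h2)).symm
  have hkey : ∀ x y z : ℤ, V (emb b (mP x y z)) * star (J (emb b (mP x y z))) = 0 := by
    intro x y z
    have d1 := iso_disj b J hJ (star_mP x y z) (star_mQ x y z) (mP_mul_mQ x y z)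
    have d2 := iso_disj b V hV (star_mP x y z) (star_mQ x y z) (mP_mul_mQ x y z)
    refine key_disj b (x' := J (emb b (mQ x y z))) (y' := V (emb b (mQ x y z))) (sJ _).2 (sJ _).2
      (sV _).2 d1.2 d1.1 ?_ ?_ ?_
    · have := congrArg star d2.2
      rwa [star_mul, star_star, star_zero] at this
    · unfold mQ
      simp only [map_sub, map_smul, hone]
      abel
    · intro t
      have s1 : IsSchatten b 4 (J (emb b (mP x y z)) + (t : ℂ) • (V (emb b (mP x y z)) -
          (1 / 2 : ℂ) • J (emb b (mQ x y z)))) := by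
        refine schatten_add_mem b (by norm_num) (sJ _) (schatten_smul_mem b (by norm_num) _ ?_)
        rw [sub_eq_add_neg, ← neg_smul]
        exact schatten_add_mem b (by norm_num) (sV _) (schatten_smul_mem b (by norm_num) _ (sJ _))
      have := hP _ s1.2
      rwa [map_add, map_smul, map_sub, map_smul, hPJ _ (emb_schatten b _).2,
        hPJ _ (emb_schatten b _).2, hVa, hdil _ (emb_schatten b _).2, WH_emb, WH_mP, map_smul,
        map_smul, sub_self, smul_zero, add_zero, ← hVa] at this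
  let A : Matrix (Fin 3) (Fin 3) ℂ →ₗ[ℂ] (H →L[ℂ] H) :=
    LinearMap.mulLeft ℂ (star (J (emb b 1))) ∘ₗ J ∘ₗ emb b
  let B : Matrix (Fin 3) (Fin 3) ℂ →ₗ[ℂ] (H →L[ℂ] H) :=
    LinearMap.mulLeft ℂ (star (V (emb b 1))) ∘ₗ V ∘ₗ emb b
  have hA : ∀ x y z : ℤ, ((x * x + y * y + z * z : ℤ) : ℂ) • A (mP x y z) =
      star (J (emb b (mP x y z))) * J (emb b (mP x y z)) := fun x y z => gram b J hJ x y z
  have hB : ∀ x y z : ℤ, ((x * x + y * y + z * z : ℤ) : ℂ) • B (mP x y z) =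
      star (V (emb b (mP x y z))) * V (emb b (mP x y z)) := fun x y z => gram b V hV x y z
  have hmid : ∀ X Y : H →L[ℂ] H, X * star Y = 0 → (star X * X) * (star Y * Y) = 0 := by
    intro X Y h
    calc (star X * X) * (star Y * Y) = star X * (X * star Y) * Y := by noncomm_ring
      _ = 0 := by rw [h]; simp
  have main : (A mE1) ^ 16 = 0 := by
    refine alg_main (E2 := A mE2) (E3 := A mE3) (S12 := A mS12) (S13 := A mS13) (S23 := A mS23)
      (F1 := B mE1) (F2 := B mE2) (F3 := B mE3) (T12 := B mS12) (T13 := B mS13) (T23 := B mS23)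
      ?_ ?_ ?_ ?_ ?_
    · rw [← map_add, ← map_add, ← map_add, ← map_add, ← one_eq]
      change star (J (emb b 1)) * J (emb b 1) = star (V (emb b 1)) * V (emb b 1)
      rw [hone]
    · intro x y z x' y' z' h
      rw [map_qf, map_qf]
      apply cancel_gram
      rw [hA, hA]
      exact hmid _ _ (iso_disj b J hJ (star_mP _ _ _) (star_mP _ _ _) (mP_mul_mP h)).1
    · intro x y z x' y' z' h
      rw [map_qf, map_qf]
      apply cancel_gram
      rw [hB, hB]
      exact hmid _ _ (iso_disj b V hV (star_mP _ _ _) (star_mP _ _ _) (mP_mul_mP h)).1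
    · intro x y z
      rw [map_qf, map_qf]
      apply cancel_gram
      rw [hA, hB]
      apply hmid
      have := congrArg star (hkey x y z)
      rwa [star_mul, star_star, star_zero] at this
    · intro x y z
      rw [map_qf, map_qf]
      apply cancel_gram
      rw [hA, hB]
      exact hmid _ _ (hkey x y z)
  have hE : mP 1 0 0 = mE1 := by
    ext r s
    fin_cases r <;> fin_cases s <;> simp [mP, mE1]
  have h1 := hA 1 0 0
  rw [hE] at h1
  simp only [mul_one, mul_zero, add_zero, Int.cast_one, one_smul] at h1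
  rw [h1] at main
  have h2 := (isSelfAdjoint_star_mul (J (emb b mE1))).norm_pow_two_pow 4
  rw [show 2 ^ 4 = 16 by norm_num, main, norm_zero] at h2
  have h3 : ‖star (J (emb b mE1)) * J (emb b mE1)‖ = 0 := pow_eq_zero_iff (by norm_num) |>.1 h2.symm
  have h4 : J (emb b mE1) = 0 := (CStarRing.star_mul_self_eq_zero_iff _).1 (norm_eq_zero.1 h3)
  have h5 := hJ _ (emb_schatten b mE1).2
  have h6 : emb b mE1 = matUnit b 0 0 := by
    simp [emb_apply, mE1, Fin.sum_univ_three]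
  rw [h4, trAbsPow_zero b (by norm_num), h6, trAbsPow_matUnit b 0 0 (by norm_num)] at h5
  exact zero_ne_one h5

lemma trAbsPow_eq_cfc (b : HilbertBasis ℕ ℂ H) (r : ℝ) (x : H →L[ℂ] H) :
    trAbsPow b r x = ∑' n : ℕ, ENNReal.ofReal
      (inner ℂ (b n) ((cfc (fun t : ℝ => t ^ (r / 2)) (star x * x)) (b n))).re := by
  unfold trAbsPow absPow
  rw [CFC.rpow_eq_cfc_real (star_mul_self_nonneg x)]
  rfl

end Pool.Agent.H237Z.Dil
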